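import Pool.Agent.H21.PAC.W
import Pool.Agent.Results.MP_ab635e_lc.Closure
open MeasureTheory Filter Topology ENNReal
open Pool.Agent.Results.MP_ab635e_lc.Closure

namespace Pool.Agent.H21.PAC

universe u
variable {X : Type u} [MeasurableSpace X]

noncomputable def D (P : ProbabilityMeasure X) (f g : X → unitInterval) : ℝ≥0∞ :=
  ∫⁻ x, ENNReal.ofReal |(f x : ℝ) - (g x : ℝ)| ∂(P : Measure X)

lemma abs_le_one (f g : X → unitInterval) (x : X) : |(f x : ℝ) - (g x : ℝ)| ≤ 1 := by
  have h1 := (f x).2.1; have h2 := (f x).2.2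
  have h3 := (g x).2.1; have h4 := (g x).2.2
  rw [abs_le]; constructor <;> linarith

lemma D_le_one (P : ProbabilityMeasure X) (f g : X → unitInterval) : D P f g ≤ 1 := by
  calc D P f g ≤ ∫⁻ x, 1 ∂(P : Measure X) :=
        lintegral_mono fun x => by simpa using abs_le_one f g x
    _ = 1 := by simp

lemma D_tri (P : ProbabilityMeasure X) (f g h : X → unitInterval) (hf : Measurable f)
    (hh : Measurable h) : D P f g ≤ D P f h + D P g h := by
  unfold D
  rw [← lintegral_add_left (by fun_prop)]
  refine lintegral_mono fun x => ?_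
  rw [← ENNReal.ofReal_add (abs_nonneg _) (abs_nonneg _)]
  refine ENNReal.ofReal_le_ofReal ?_
  have := abs_sub_le (f x : ℝ) (h x) (g x)
  rw [abs_sub_comm (h x : ℝ) (g x)] at this
  exact this

lemma D_tv (P R : ProbabilityMeasure X) {η : ℝ} (h : rho P R ≤ η) (f g : X → unitInterval) :
    D R f g ≤ D P f g + ENNReal.ofReal η :=
  lint_le P R h _ (fun x => by simpa using abs_le_one f g x)

lemma ofReal_dist1 (R : ProbabilityMeasure X) (f g : X → unitInterval) (hf : Measurable f)
    (hg : Measurable g) : ENNReal.ofReal (dist1 R f g) = D R f g := by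
  have hmeas : Measurable (fun x => |(f x : ℝ) - (g x : ℝ)|) := by
    fun_prop
  refine ofReal_integral_eq_lintegral_ofReal ?_ (Eventually.of_forall fun x => abs_nonneg _)
  refine Integrable.of_bound hmeas.aestronglyMeasurable 1 (Eventually.of_forall fun x => ?_)
  rw [Real.norm_eq_abs, abs_abs]; exact abs_le_one f g x

open Classical in
lemma core {k : ℕ} (F : Set (X → unitInterval))
    (m : ℕ) (A : (Fin m → X × unitInterval) → (X → unitInterval))
    (hmeasF : ∀ f ∈ F, Measurable f) (hAF : ∀ s, A s ∈ F) (f₀ : X → unitInterval) (hf₀ : f₀ ∈ F)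
    (Q : ProbabilityMeasure X) (P R : Fin k → ProbabilityMeasure X) (c : Fin k → ℝ≥0∞)
    (hQ : (Q : Measure X) = ∑ i, c i • (R i : Measure X)) (hc : ∑ i, c i = 1)
    (η : ℝ) (hη : ∀ i, rho (P i) (R i) ≤ η) (e δ : ℝ≥0∞) (he0 : e ≠ 0) (het : e ≠ ∞)
    (hmη : m * ENNReal.ofReal η ≤ δ) (hηe : ENNReal.ofReal η ≤ e)
    (hA : ∀ i, ∀ f ∈ F, (Measure.pi (fun _ : Fin m => (P i : Measure X)))
      {x | e < D (P i) f (A fun j => (x j, f (x j)))} ≤ δ)
    (c0 : ℝ≥0∞) (hc0 : k * c0 ≤ e) (hc01 : c0 ≤ 1) (N : ℕ) (hN : (1 - c0^m)^N ≤ 2*δ) :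
    ∃ B : (Fin N → Fin m → X × unitInterval) → (X → unitInterval), (∀ s, B s ∈ F) ∧
      ∀ f ∈ F, (Measure.pi (fun _ : Fin N => Measure.pi (fun _ : Fin m => (Q : Measure X))))
        {z | 7 * e < D Q f (B fun b j => (z b j, f (z b j)))} ≤ 16 * δ / e := by
  set μ : Measure (Fin m → X) := Measure.pi (fun _ : Fin m => (Q : Measure X)) with hμ
  set μZ : Measure (Fin N → Fin m → X) := Measure.pi (fun _ : Fin N => μ) with hμZ
  have hG : ∀ i, ∃ G : Set (Fin m → X) → Set (Fin N → Fin m → X), c0 ≤ c i →
      (∀ B, (Measure.pi (fun _ : Fin m => (R i : Measure X))) B ≤ 2 * δ →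
        μZ (G B)ᶜ ≤ 8 * (2 * δ)) ∧
      ∀ B B' z, z ∈ G B → z ∈ G B' → ∃ b, z b ∉ B ∧ z b ∉ B' := by
    intro i
    by_cases hi : c0 ≤ c i
    · have hle : c0 • (R i : Measure X) ≤ (Q : Measure X) := by
        rw [hQ, Measure.le_iff]
        intro s hs
        rw [Measure.finset_sum_apply]
        simp only [Measure.smul_apply, smul_eq_mul]
        calc c0 * (R i : Measure X) s ≤ c i * (R i : Measure X) s := by gcongr
          _ ≤ ∑ j, c j * (R j : Measure X) s :=
            Finset.single_le_sum (f := fun j => c j * (R j : Measure X) s)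
              (fun _ _ => zero_le) (Finset.mem_univ i)
      obtain ⟨G, hG⟩ := exists_G μ (Measure.pi (fun _ : Fin m => (R i : Measure X)))
        (c0 ^ m) (pow_le_one' hc01 m) (pi_ge X _ _ c0 hle m) (2 * δ) N hN
      exact ⟨G, fun _ => hG⟩
    · exact ⟨fun _ => ∅, fun h => absurd h hi⟩
  choose G hG using hG
  let bad : Fin k → (X → unitInterval) → Set (Fin m → X) := fun i f =>
    {x | e < D (P i) f (A fun j => (x j, f (x j)))}
  have hbad : ∀ i, ∀ f ∈ F, (Measure.pi (fun _ : Fin m => (R i : Measure X))) (bad i f)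
      ≤ 2 * δ := by
    intro i f hf
    calc _ ≤ (Measure.pi (fun _ : Fin m => (P i : Measure X))) (bad i f) +
          m * ENNReal.ofReal η := pi_le (P i) (R i) (hη i) m _
      _ ≤ δ + δ := add_le_add (hA i f hf) hmη
      _ = 2 * δ := by ring
  let good : Fin k → (X → unitInterval) → (Fin N → Fin m → X) → Prop := fun i f z =>
    c0 ≤ c i ∧ z ∈ G i (bad i f)
  let wt : (X → unitInterval) → (Fin N → Fin m → X) → ℝ≥0∞ := fun f z =>
    ∑ i, if good i f z then 0 else c i
  have claim2 : ∀ f ∈ F, μZ {z | ¬ wt f z < 2 * e} ≤ 16 * δ / e := by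
    intro f hf
    let U : Fin k → Set (Fin N → Fin m → X) := fun i =>
      if c0 ≤ c i then toMeasurable μZ (G i (bad i f))ᶜ else ∅
    have hU : ∀ i, MeasurableSet (U i) := by
      intro i
      by_cases hi : c0 ≤ c i
      · simp only [U, if_pos hi]; exact measurableSet_toMeasurable _ _
      · simp only [U, if_neg hi]; exact MeasurableSet.empty
    have hUm : ∀ i, μZ (U i) ≤ 16 * δ := by
      intro i
      by_cases hi : c0 ≤ c i
      · simp only [U, if_pos hi]
        rw [measure_toMeasurable]
        refine ((hG i hi).1 _ (hbad i f hf)).trans (le_of_eq (by ring))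
      · simp only [U, if_neg hi]; simp
    have hle : ∀ z, wt f z ≤ e + ∑ i, (U i).indicator (fun _ => c i) z := by
      intro z
      calc wt f z ≤ ∑ i, (c0 + (U i).indicator (fun _ => c i) z) := by
            refine Finset.sum_le_sum fun i _ => ?_
            by_cases hg : good i f z
            · rw [if_pos hg]; exact zero_le
            · rw [if_neg hg]
              by_cases hi : c0 ≤ c i
              · have hz : z ∈ U i := by
                  simp only [U, if_pos hi]
                  refine subset_toMeasurable _ _ ?_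
                  intro hz
                  exact hg ⟨hi, hz⟩
                rw [Set.indicator_of_mem hz]
                exact le_add_self
              · exact (not_le.mp hi).le.trans le_self_add
        _ = k * c0 + ∑ i, (U i).indicator (fun _ => c i) z := by
            rw [Finset.sum_add_distrib]; simp
        _ ≤ _ := by gcongr
    have hsub : {z | ¬ wt f z < 2 * e} ⊆ {z | e ≤ ∑ i, (U i).indicator (fun _ => c i) z} := by
      intro z hz
      have hz' : 2 * e ≤ wt f z := not_lt.mp hz
      have h2 := hz'.trans (hle z)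
      rw [two_mul] at h2
      exact (ENNReal.add_le_add_iff_left het).mp h2
    have hms : Measurable (fun z : Fin N → Fin m → X =>
        ∑ i, (U i).indicator (fun _ => c i) z) :=
      Finset.measurable_sum _ fun i _ => measurable_const.indicator (hU i)
    have hmk := mul_meas_ge_le_lintegral (μ := μZ) hms e
    rw [ENNReal.le_div_iff_mul_le (Or.inl he0) (Or.inl het), mul_comm]
    calc e * μZ {z | ¬ wt f z < 2 * e} ≤
          e * μZ {z | e ≤ ∑ i, (U i).indicator (fun _ => c i) z} := by gcongr
      _ ≤ ∫⁻ z, ∑ i, (U i).indicator (fun _ => c i) z ∂μZ := hmk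
      _ = ∑ i, c i * μZ (U i) := by
          rw [lintegral_finset_sum _ fun i _ => measurable_const.indicator (hU i)]
          refine Finset.sum_congr rfl fun i _ => ?_
          rw [lintegral_indicator_const (hU i)]
      _ ≤ ∑ i, c i * (16 * δ) := by gcongr with i; exact hUm i
      _ = 16 * δ := by rw [← Finset.sum_mul, hc, one_mul]
  let B : (Fin N → Fin m → X × unitInterval) → (X → unitInterval) := fun s =>
    if h : ∃ g ∈ F, wt g (fun b j => (s b j).1) < 2 * e ∧ ∀ b j, g (s b j).1 = (s b j).2
    then h.choose else f₀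
  refine ⟨B, ?_, ?_⟩
  · intro s
    by_cases h : ∃ g ∈ F, wt g (fun b j => (s b j).1) < 2 * e ∧ ∀ b j, g (s b j).1 = (s b j).2
    · simp only [B, dif_pos h]; exact h.choose_spec.1
    · simp only [B, dif_neg h]; exact hf₀
  · intro f hf
    refine le_trans (measure_mono ?_) (claim2 f hf)
    intro z hz hwt
    have hz' : 7 * e < D Q f (B fun b j => (z b j, f (z b j))) := hz
    have hex : ∃ g ∈ F, wt g (fun b j => z b j) < 2 * e ∧
        ∀ b j, g (z b j) = f (z b j) := ⟨f, hf, hwt, fun _ _ => rfl⟩
    have hBdef : B (fun b j => (z b j, f (z b j))) = hex.choose := by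
      simp only [B]
      exact dif_pos hex
    rw [hBdef] at hz'
    obtain ⟨hgF, hgwt, hgag⟩ := hex.choose_spec
    set g := hex.choose with hg
    have hgwt' : wt g z < 2 * e := hgwt
    have hterm : ∀ i, c i * D (R i) f g ≤ c i * (3 * e) + (if good i f z then 0 else c i) +
        (if good i g z then 0 else c i) := by
      intro i
      by_cases h1 : good i f z
      · by_cases h2 : good i g z
        · rw [if_pos h1, if_pos h2, add_zero, add_zero]
          gcongr
          obtain ⟨b, hb1, hb2⟩ := (hG i h1.1).2 _ _ z h1.2 h2.2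
          have hb1' : D (P i) f (A fun j => (z b j, f (z b j))) ≤ e := not_lt.mp hb1
          have hb2' : D (P i) g (A fun j => (z b j, g (z b j))) ≤ e := not_lt.mp hb2
          have hag : (fun j => (z b j, g (z b j))) = fun j => (z b j, f (z b j)) := by
            funext j; rw [hgag b j]
          rw [hag] at hb2'
          calc D (R i) f g ≤ D (P i) f g + ENNReal.ofReal η := D_tv _ _ (hη i) _ _
            _ ≤ (D (P i) f (A fun j => (z b j, f (z b j))) +
                D (P i) g (A fun j => (z b j, f (z b j)))) + e := by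
                gcongr
                exact D_tri _ _ _ _ (hmeasF f hf) (hmeasF _ (hAF _))
            _ ≤ (e + e) + e := by gcongr
            _ = 3 * e := by ring
        · rw [if_neg h2]
          exact (mul_le_of_le_one_right' (D_le_one _ _ _)).trans le_add_self
      · rw [if_neg h1]
        calc c i * D (R i) f g ≤ c i := mul_le_of_le_one_right' (D_le_one _ _ _)
          _ ≤ c i * (3 * e) + c i := le_add_self
          _ ≤ _ := le_self_add
    have hDQ : D Q f g = ∑ i, c i * D (R i) f g := by
      unfold D
      rw [hQ, lintegral_finset_sum_measure]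
      refine Finset.sum_congr rfl fun i _ => ?_
      rw [lintegral_smul_measure, smul_eq_mul]
    have : D Q f g ≤ 7 * e := by
      rw [hDQ]
      calc ∑ i, c i * D (R i) f g ≤ ∑ i, (c i * (3 * e) + (if good i f z then 0 else c i) +
            (if good i g z then 0 else c i)) := Finset.sum_le_sum fun i _ => hterm i
        _ = 3 * e + wt f z + wt g z := by
            rw [Finset.sum_add_distrib, Finset.sum_add_distrib, ← Finset.sum_mul, hc, one_mul]
        _ ≤ 3 * e + 2 * e + 2 * e := by gcongr
        _ = 7 * e := by ring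
    exact absurd hz' (not_lt.mpr this)

/-- reindexing -/
lemma map_reindex {ι κ : Type*} [Fintype ι] [Fintype κ] (j : κ → ι) (hj : Function.Injective j)
    (Q : ProbabilityMeasure X) :
    MeasurePreserving (fun (z : ι → X) (k : κ) => z (j k))
      (Measure.pi (fun _ : ι => (Q : Measure X))) (Measure.pi (fun _ : κ => (Q : Measure X))) := by
  classical
  have hmm : Measurable (fun (z : ι → X) (k : κ) => z (j k)) :=
    measurable_pi_lambda _ fun k => measurable_pi_apply _
  refine ⟨hmm, ?_⟩
  symm
  refine Measure.pi_eq fun s hs => ?_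
  rw [Measure.map_apply hmm (MeasurableSet.univ_pi hs)]
  have hpre : (fun (z : ι → X) (k : κ) => z (j k)) ⁻¹' (Set.univ.pi s) =
      Set.univ.pi (fun i => if h : ∃ k, j k = i then s h.choose else Set.univ) := by
    ext z
    simp only [Set.mem_preimage, Set.mem_univ_pi]
    constructor
    · intro h i
      by_cases hi : ∃ k, j k = i
      · rw [dif_pos hi]
        have := h hi.choose
        rwa [hi.choose_spec] at this
      · rw [dif_neg hi]; trivial
    · intro h k
      have hk : ∃ k', j k' = j k := ⟨k, rfl⟩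
      have := h (j k)
      rw [dif_pos hk, hj hk.choose_spec] at this
      exact this
  rw [hpre, Measure.pi_pi]
  rw [← Finset.prod_subset (Finset.subset_univ (Finset.univ.image j))]
  · rw [Finset.prod_image (fun a _ b _ h => hj h)]
    refine Finset.prod_congr rfl fun k _ => ?_
    have hk : ∃ k', j k' = j k := ⟨k, rfl⟩
    rw [dif_pos hk, hj hk.choose_spec]
  · intro i _ hi
    have : ¬ ∃ k, j k = i := by
      rintro ⟨k, rfl⟩
      exact hi (Finset.mem_image_of_mem j (Finset.mem_univ k))
    rw [dif_neg this]; simp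

lemma map_curry (N m : ℕ) (Q : ProbabilityMeasure X) :
    MeasurePreserving (fun (z : Fin N × Fin m → X) (b : Fin N) (j : Fin m) => z (b, j))
      (Measure.pi (fun _ : Fin N × Fin m => (Q : Measure X)))
      (Measure.pi (fun _ : Fin N => Measure.pi (fun _ : Fin m => (Q : Measure X)))) := by
  refine ⟨by fun_prop, ?_⟩
  have h := Measure.infinitePi_map_curry (ι := Fin N) (κ := Fin m) (X := X)
    (fun _ _ => (Q : Measure X))
  simp only [Measure.infinitePi_eq_pi] at h
  exact h

end Pool.Agent.H21.PAC
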