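import Pool.Agent.H21.PAC.W
import Pool.Agent.Results.MP_ab635e_lc.Closure
open MeasureTheory Filter Topology ENNReal ProbabilityTheory
open Pool.Agent.Results.MP_ab635e_lc.Closure

namespace Pool.Agent.H21.PAC

universe u
variable {X : Type u} [MeasurableSpace X]

noncomputable def cnt (A : Set X) (n : ℕ) : (Fin n → X) → ℝ :=
  ∑ k : Fin n, fun (z : Fin n → X) => A.indicator (fun _ => (1:ℝ)) (z k)

lemma cnt_meas (A : Set X) (hA : MeasurableSet A) (n : ℕ) : Measurable (cnt A n) := by
  have h : ∀ k : Fin n, Measurable (fun z : Fin n → X => A.indicator (fun _ => (1:ℝ)) (z k)) :=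
    fun k => (((measurable_const : Measurable fun _ : X => (1:ℝ)).indicator hA).comp
      (measurable_pi_apply k))
  have h2 : Measurable (fun z : Fin n → X => ∑ k : Fin n, A.indicator (fun _ => (1:ℝ)) (z k)) :=
    Finset.measurable_fun_sum _ fun k _ => h k
  have h3 : cnt A n = (fun z : Fin n → X => ∑ k : Fin n, A.indicator (fun _ => (1:ℝ)) (z k)) := by
    funext z; simp [cnt]
  rw [h3]; exact h2

lemma conc (Q : ProbabilityMeasure X) (A : Set X) (hA : MeasurableSet A) (n : ℕ) (hn : 0 < n)
    (τ : ℝ) (hτ : 0 < τ) :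
    (Measure.pi (fun _ : Fin n => (Q : Measure X)))
      {z | n * τ ≤ |cnt A n z - n * (Q : Measure X).real A|} ≤
      ENNReal.ofReal (1 / (n * τ ^ 2)) := by
  have hmemQ : MemLp (A.indicator (fun _ => (1:ℝ))) 2 (Q : Measure X) :=
    (memLp_const 1).indicator hA
  have hmem : ∀ k : Fin n, MemLp (fun z : Fin n → X => A.indicator (fun _ => (1:ℝ)) (z k)) 2
      (Measure.pi (fun _ : Fin n => (Q : Measure X))) := fun k =>
    hmemQ.comp_measurePreserving (measurePreserving_eval (fun _ : Fin n => (Q : Measure X)) k)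
  have hX : MemLp (cnt A n) 2 (Measure.pi (fun _ : Fin n => (Q : Measure X))) := by
    unfold cnt
    exact memLp_finset_sum' _ fun k _ => hmem k
  have hmean : ∫ z, cnt A n z ∂(Measure.pi (fun _ : Fin n => (Q : Measure X))) =
      n * (Q : Measure X).real A := by
    unfold cnt
    simp only [Finset.sum_apply]
    rw [integral_finset_sum _ fun k _ => (hmem k).integrable (by norm_num)]
    have : ∀ k : Fin n, ∫ z, A.indicator (fun _ => (1:ℝ)) (z k)
        ∂(Measure.pi (fun _ : Fin n => (Q : Measure X))) = (Q : Measure X).real A := by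
      intro k
      have h := measurePreserving_eval (fun _ : Fin n => (Q : Measure X)) k
      have := integral_map (φ := Function.eval k) (μ := Measure.pi (fun _ : Fin n => (Q : Measure X)))
        h.measurable.aemeasurable (f := A.indicator (fun _ => (1:ℝ)))
        (measurable_const.indicator hA).aestronglyMeasurable
      rw [h.map_eq] at this
      rw [integral_indicator_const _ hA] at this
      simpa using this.symm
    simp [this]
  have hvar : Var[cnt A n; Measure.pi (fun _ : Fin n => (Q : Measure X))] ≤ n := by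
    unfold cnt
    rw [variance_sum_pi (fun _ => hmemQ)]
    calc ∑ k : Fin n, Var[A.indicator (fun _ => (1:ℝ)); (Q : Measure X)] ≤ ∑ k : Fin n, (1:ℝ) := by
          refine Finset.sum_le_sum fun k _ => ?_
          refine (variance_le_sq_of_bounded (a := 0) (b := 1)
            (Eventually.of_forall fun x => ?_) hmemQ.aemeasurable).trans (by norm_num)
          by_cases hx : x ∈ A
          · simp [hx]
          · simp [hx]
      _ = n := by simp
  have hc : 0 < n * τ := by positivity
  have := meas_ge_le_variance_div_sq hX hc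
  rw [hmean] at this
  refine this.trans (ENNReal.ofReal_le_ofReal ?_)
  rw [div_le_div_iff₀ (by positivity) (by positivity)]
  have hn' : (0:ℝ) < n := by exact_mod_cast hn
  nlinarith [mul_le_mul_of_nonneg_right hvar (by positivity : (0:ℝ) ≤ n * τ ^ 2)]

lemma exists_sep (P Q : ProbabilityMeasure X) (τ : ℝ) (hτ : 0 < τ) :
    ∃ S : Set X, MeasurableSet S ∧
      rho P Q ≤ |(P : Measure X).real S - (Q : Measure X).real S| + τ := by
  have hne : Nonempty {A : Set X // MeasurableSet A} := ⟨⟨∅, MeasurableSet.empty⟩⟩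
  have h : rho P Q - τ < rho P Q := by linarith
  obtain ⟨⟨S, hS⟩, h2⟩ := exists_lt_of_lt_ciSup h
  exact ⟨S, hS, by simp only at h2; linarith⟩

lemma rho_le_of (P Q : ProbabilityMeasure X) (r : ℝ)
    (h : ∀ A : Set X, MeasurableSet A → |(P : Measure X).real A - (Q : Measure X).real A| ≤ r) :
    rho P Q ≤ r := by
  have hne : Nonempty {A : Set X // MeasurableSet A} := ⟨⟨∅, MeasurableSet.empty⟩⟩
  exact ciSup_le fun A => h A.1 A.2

lemma rho_tri (P Q R : ProbabilityMeasure X) : rho P R ≤ rho P Q + rho Q R := by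
  refine rho_le_of _ _ _ fun A hA => ?_
  have h1 := le_rho P Q hA
  have h2 := le_rho Q R hA
  have h3 := abs_sub_le ((P : Measure X).real A) ((Q : Measure X).real A)
    ((R : Measure X).real A)
  linarith

lemma test {r : ℕ} (hr : 0 < r) (Qn : Fin r → ProbabilityMeasure X) (τ : ℝ) (hτ : 0 < τ)
    (δ : ℝ) (hδ : 0 < δ) :
    ∃ (n : ℕ) (T : (Fin n → X) → Fin r), Measurable T ∧ ∀ Q : ProbabilityMeasure X,
      (∃ j, rho (Qn j) Q ≤ τ) →
      (Measure.pi (fun _ : Fin n => (Q : Measure X))) {z | ¬ rho (Qn (T z)) Q ≤ 6 * τ} ≤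
        ENNReal.ofReal δ := by
  classical
  choose S hS hsep using fun p : Fin r × Fin r => exists_sep (Qn p.1) (Qn p.2) τ hτ
  obtain ⟨n, hn⟩ := exists_nat_gt ((r * r : ℝ) / (δ * τ ^ 2))
  have hn0 : 0 < n := by
    have : (0:ℝ) < n := lt_of_le_of_lt (by positivity) hn
    exact_mod_cast this
  have hn0' : (0:ℝ) < n := by exact_mod_cast hn0
  let Ok : (Fin n → X) → Fin r → Prop := fun z j =>
    ∀ p, |cnt (S p) n z - n * (Qn j : Measure X).real (S p)| ≤ n * (2 * τ)
  let Φ : (Fin r → Prop) → Fin r := fun s => if h : ∃ j, s j then h.choose else ⟨0, hr⟩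
  have hΨ : Measurable Ok := by
    refine measurable_pi_lambda _ fun j => ?_
    refine measurableSet_setOfPred.mp ?_
    have : {z | Ok z j} = ⋂ p, {z | |cnt (S p) n z - n * (Qn j : Measure X).real (S p)|
        ≤ n * (2 * τ)} := by
      ext z; simp [Ok]
    rw [this]
    refine MeasurableSet.iInter fun p => measurableSet_le ?_ measurable_const
    exact (((cnt_meas _ (hS p) n).sub measurable_const)).abs
  have hΦ : Measurable Φ := measurable_of_countable _
  refine ⟨n, fun z => Φ (Ok z), hΦ.comp hΨ, ?_⟩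
  rintro Q ⟨j0, hj0⟩
  have hsub : {z | ¬ rho (Qn (Φ (Ok z))) Q ≤ 6 * τ} ⊆
      ⋃ p : Fin r × Fin r, {z | n * τ ≤ |cnt (S p) n z - n * (Q : Measure X).real (S p)|} := by
    intro z hz
    by_contra hcon
    simp only [Set.mem_iUnion, not_exists] at hcon
    apply hz
    have hcon' : ∀ p, |cnt (S p) n z - n * (Q : Measure X).real (S p)| < n * τ :=
      fun p => not_le.mp (hcon p)
    have hok0 : Ok z j0 := by
      intro p
      have h1 := hcon' p
      have h2 := (le_rho (Qn j0) Q (hS p)).trans hj0
      have h3 : |(n:ℝ) * (Q : Measure X).real (S p) - n * (Qn j0 : Measure X).real (S p)|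
          ≤ n * τ := by
        rw [← mul_sub, abs_mul, abs_of_pos hn0', abs_sub_comm]
        gcongr
      have h4 := abs_sub_le (cnt (S p) n z) (n * (Q : Measure X).real (S p))
        (n * (Qn j0 : Measure X).real (S p))
      linarith
    have hex : ∃ j, Ok z j := ⟨j0, hok0⟩
    have hΦz : Φ (Ok z) = hex.choose := dif_pos hex
    rw [hΦz]
    have hok := hex.choose_spec
    set j := hex.choose
    have h1 := hok (j, j0)
    have h2 := hok0 (j, j0)
    have h3 := hsep (j, j0)
    simp only at h3
    have h4 : |(n:ℝ) * (Qn j : Measure X).real (S (j, j0)) -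
        n * (Qn j0 : Measure X).real (S (j, j0))| ≤ n * (4 * τ) := by
      have := abs_sub_le (n * (Qn j : Measure X).real (S (j, j0))) (cnt (S (j, j0)) n z)
        (n * (Qn j0 : Measure X).real (S (j, j0)))
      rw [abs_sub_comm (n * (Qn j : Measure X).real (S (j, j0))) (cnt (S (j, j0)) n z)] at this
      linarith
    rw [← mul_sub, abs_mul, abs_of_pos hn0'] at h4
    have h5 := le_of_mul_le_mul_left h4 hn0'
    have h6 := rho_tri (Qn j) (Qn j0) Q
    linarith
  refine (measure_mono hsub).trans ((measure_iUnion_le _).trans ?_)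
  rw [tsum_fintype]
  calc ∑ p : Fin r × Fin r, (Measure.pi (fun _ : Fin n => (Q : Measure X)))
        {z | n * τ ≤ |cnt (S p) n z - n * (Q : Measure X).real (S p)|}
      ≤ ∑ p : Fin r × Fin r, ENNReal.ofReal (1 / (n * τ ^ 2)) :=
        Finset.sum_le_sum fun p _ => conc Q _ (hS p) n hn0 τ hτ
    _ = ENNReal.ofReal (r * r * (1 / (n * τ ^ 2))) := by
        rw [Finset.sum_const, nsmul_eq_mul, ENNReal.ofReal_mul (by positivity)]
        congr 1
        simp only [Finset.card_univ, Fintype.card_prod, Fintype.card_fin]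
        rw [← Nat.cast_mul, ENNReal.ofReal_natCast]
    _ ≤ ENNReal.ofReal δ := by
        refine ENNReal.ofReal_le_ofReal ?_
        rw [div_lt_iff₀ (by positivity)] at hn
        rw [mul_one_div, div_le_iff₀ (by positivity)]
        nlinarith

end Pool.Agent.H21.PAC
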