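import Mathlib
open MeasureTheory Filter Topology ENNReal

namespace Pool.Agent.H21.PAC

universe u
variable {Ω : Type u} [MeasurableSpace Ω]

/-- probability that the first accepted block lies in `T` -/
noncomputable def W (w : Ω → ℝ≥0∞) (T : Set Ω) : (N : ℕ) → (Fin N → Ω) → ℝ≥0∞
  | 0, _ => 0
  | N+1, z => T.indicator w (z 0) + (1 - w (z 0)) * W w T N (Fin.tail z)

noncomputable def rest (w : Ω → ℝ≥0∞) : (N : ℕ) → (Fin N → Ω) → ℝ≥0∞
  | 0, _ => 1
  | N+1, z => (1 - w (z 0)) * rest w N (Fin.tail z)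

lemma W_univ (w : Ω → ℝ≥0∞) (hw : ∀ x, w x ≤ 1) (N : ℕ) (z : Fin N → Ω) :
    W w Set.univ N z + rest w N z = 1 := by
  induction N with
  | zero => simp [W, rest]
  | succ N ih =>
    simp only [W, rest, Set.indicator_univ]
    rw [add_assoc, ← mul_add, ih, mul_one, add_tsub_cancel_of_le (hw _)]

lemma W_union (w : Ω → ℝ≥0∞) (T T' : Set Ω) (N : ℕ) (z : Fin N → Ω)
    (h : ∀ b, z b ∈ T ∨ z b ∈ T') : W w Set.univ N z ≤ W w T N z + W w T' N z := by
  induction N with
  | zero => simp [W]
  | succ N ih =>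
    simp only [W, Set.indicator_univ]
    have h1 := ih (Fin.tail z) (fun b => h b.succ)
    have h2 : w (z 0) ≤ T.indicator w (z 0) + T'.indicator w (z 0) := by
      rcases h 0 with h | h
      · rw [Set.indicator_of_mem h]; exact le_self_add
      · rw [Set.indicator_of_mem h]; exact le_add_self
    calc w (z 0) + (1 - w (z 0)) * W w Set.univ N (Fin.tail z)
        ≤ (T.indicator w (z 0) + T'.indicator w (z 0)) +
          (1 - w (z 0)) * (W w T N (Fin.tail z) + W w T' N (Fin.tail z)) := by gcongr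
      _ = _ := by ring

lemma meas_W (w : Ω → ℝ≥0∞) (hw : Measurable w) (T : Set Ω) (hT : MeasurableSet T) (N : ℕ) :
    Measurable (W w T N) := by
  induction N with
  | zero => exact measurable_const
  | succ N ih =>
    have ht : Measurable (Fin.tail : (Fin (N+1) → Ω) → (Fin N → Ω)) :=
      measurable_pi_lambda _ (fun i => measurable_pi_apply _)
    have h1 : Measurable (fun z : Fin (N+1) → Ω => T.indicator w (z 0)) :=
      (hw.indicator hT).comp (measurable_pi_apply 0)
    have h2 : Measurable (fun z : Fin (N+1) → Ω => 1 - w (z 0)) :=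
      measurable_const.sub (hw.comp (measurable_pi_apply 0))
    exact h1.add (h2.mul (ih.comp ht))

lemma meas_rest (w : Ω → ℝ≥0∞) (hw : Measurable w) (N : ℕ) :
    Measurable (rest w N) := by
  induction N with
  | zero => exact measurable_const
  | succ N ih =>
    have ht : Measurable (Fin.tail : (Fin (N+1) → Ω) → (Fin N → Ω)) :=
      measurable_pi_lambda _ (fun i => measurable_pi_apply _)
    have h2 : Measurable (fun z : Fin (N+1) → Ω => 1 - w (z 0)) :=
      measurable_const.sub (hw.comp (measurable_pi_apply 0))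
    exact h2.mul (ih.comp ht)

lemma lint_succ (μ : Measure Ω) [IsProbabilityMeasure μ] (N : ℕ) (g : Ω → (Fin N → Ω) → ℝ≥0∞)
    (hg : Measurable (Function.uncurry g)) :
    ∫⁻ z, g (z 0) (Fin.tail z) ∂(Measure.pi (fun _ : Fin (N+1) => μ)) =
    ∫⁻ x, ∫⁻ y, g x y ∂(Measure.pi (fun _ : Fin N => μ)) ∂μ := by
  have h := measurePreserving_piFinSuccAbove (fun _ : Fin (N+1) => μ) 0
  have h2 := h.lintegral_comp hg
  rw [lintegral_prod _ hg.aemeasurable] at h2
  exact h2

lemma int_W (μ : Measure Ω) [IsProbabilityMeasure μ] (ν : Measure Ω) [IsProbabilityMeasure ν]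
    (c : ℝ≥0∞) (hc : c ≤ 1) (w : Ω → ℝ≥0∞)
    (hw : Measurable w) (hw1 : ∀ x, w x ≤ 1)
    (hwν : μ.withDensity w = c • ν) (T : Set Ω) (hT : MeasurableSet T) (N : ℕ) :
    ∫⁻ z, W w T N z ∂(Measure.pi (fun _ : Fin N => μ)) ≤ ν T ∧
    ∫⁻ z, rest w N z ∂(Measure.pi (fun _ : Fin N => μ)) = (1 - c) ^ N := by
  have hwi : ∀ T : Set Ω, MeasurableSet T → ∫⁻ x, T.indicator w x ∂μ = c * ν T := by
    intro T hT
    rw [lintegral_indicator hT, ← withDensity_apply _ hT, hwν]; simp
  have hwu : ∫⁻ x, w x ∂μ = c := by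
    have := hwi Set.univ MeasurableSet.univ
    simpa using this
  have hcfin : c ≠ ∞ := ne_top_of_le_ne_top one_ne_top hc
  have h1w : ∫⁻ x, (1 - w x) ∂μ = 1 - c := by
    rw [lintegral_sub hw (by rw [hwu]; exact hcfin) (Eventually.of_forall hw1), hwu]; simp
  induction N with
  | zero => simp [W, rest]
  | succ N ih =>
    obtain ⟨ih1, ih2⟩ := ih
    have mW := meas_W w hw T hT N
    have mR := meas_rest w hw N
    constructor
    · have := lint_succ μ N (fun x y => T.indicator w x + (1 - w x) * W w T N y) (by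
        have h1 : Measurable (fun p : Ω × (Fin N → Ω) => T.indicator w p.1) :=
          (hw.indicator hT).comp measurable_fst
        have h2 : Measurable (fun p : Ω × (Fin N → Ω) => 1 - w p.1) :=
          measurable_const.sub (hw.comp measurable_fst)
        exact h1.add (h2.mul (mW.comp measurable_snd)))
      simp only [W]
      rw [this]
      calc ∫⁻ x, ∫⁻ y, (T.indicator w x + (1 - w x) * W w T N y)
              ∂(Measure.pi (fun _ : Fin N => μ)) ∂μ
          = ∫⁻ x, (T.indicator w x + (1 - w x) *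
              ∫⁻ y, W w T N y ∂(Measure.pi (fun _ : Fin N => μ))) ∂μ := by
            congr 1; ext x
            rw [lintegral_add_left measurable_const, lintegral_const_mul _ mW]
            simp
        _ ≤ ∫⁻ x, (T.indicator w x + (1 - w x) * ν T) ∂μ := by
            gcongr
        _ = c * ν T + (1 - c) * ν T := by
            have hm : ∫⁻ x, (1 - w x) * ν T ∂μ = (∫⁻ x, (1 - w x) ∂μ) * ν T :=
              lintegral_mul_const _ (measurable_const.sub hw)
            rw [lintegral_add_left (hw.indicator hT), hwi T hT, hm, h1w]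
        _ = ν T := by rw [← add_mul, add_tsub_cancel_of_le hc, one_mul]
    · have := lint_succ μ N (fun x y => (1 - w x) * rest w N y) (by
        have h2 : Measurable (fun p : Ω × (Fin N → Ω) => 1 - w p.1) :=
          measurable_const.sub (hw.comp measurable_fst)
        exact h2.mul (mR.comp measurable_snd))
      simp only [rest]
      rw [this]
      calc ∫⁻ x, ∫⁻ y, ((1 - w x) * rest w N y) ∂(Measure.pi (fun _ : Fin N => μ)) ∂μ
          = ∫⁻ x, ((1 - w x) * (1 - c) ^ N) ∂μ := by
            congr 1; ext x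
            rw [lintegral_const_mul _ mR, ih2]
        _ = (1 - c) ^ (N+1) := by
            have hm : ∫⁻ x, (1 - w x) * (1 - c) ^ N ∂μ = (∫⁻ x, (1 - w x) ∂μ) * (1 - c) ^ N :=
              lintegral_mul_const _ (measurable_const.sub hw)
            rw [hm, h1w, pow_succ']

/-- density version -/
lemma exists_w (μ : Measure Ω) [IsProbabilityMeasure μ] (ν : Measure Ω) [IsProbabilityMeasure ν]
    (c : ℝ≥0∞) (hc1 : c ≤ 1) (hc : c • ν ≤ μ) :
    ∃ w : Ω → ℝ≥0∞, Measurable w ∧ (∀ x, w x ≤ 1) ∧ μ.withDensity w = c • ν := by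
  have hcfin : c ≠ ∞ := ne_top_of_le_ne_top one_ne_top hc1
  haveI : IsFiniteMeasure (c • ν) := Measure.smul_finite ν hcfin
  have hac : c • ν ≪ μ := Measure.absolutelyContinuous_of_le hc
  have h1 : μ.withDensity ((c • ν).rnDeriv μ) = c • ν := Measure.withDensity_rnDeriv_eq _ _ hac
  have h2 : (c • ν).rnDeriv μ ≤ᵐ[μ] 1 := Measure.rnDeriv_le_one_of_le hc
  refine ⟨fun x => min ((c • ν).rnDeriv μ x) 1, (Measure.measurable_rnDeriv _ _).min
    measurable_const, fun x => min_le_right _ _, ?_⟩
  rw [← h1]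
  refine withDensity_congr_ae ?_
  filter_upwards [h2] with x hx
  rw [h1]
  exact min_eq_left hx

/-- The main abstract lemma. -/
lemma exists_G (μ : Measure Ω) [IsProbabilityMeasure μ] (ν : Measure Ω) [IsProbabilityMeasure ν]
    (c : ℝ≥0∞) (hc1 : c ≤ 1) (hc : c • ν ≤ μ) (δ : ℝ≥0∞) (N : ℕ) (hN : (1 - c) ^ N ≤ δ) :
    ∃ G : Set Ω → Set (Fin N → Ω),
      (∀ B, ν B ≤ δ → (Measure.pi (fun _ : Fin N => μ)) (G B)ᶜ ≤ 8 * δ) ∧
      ∀ B B' z, z ∈ G B → z ∈ G B' → ∃ b, z b ∉ B ∧ z b ∉ B' := by
  obtain ⟨w, hw, hw1, hwν⟩ := exists_w μ ν c hc1 hc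
  refine ⟨fun B => {z | W w (toMeasurable ν B) N z < 1/4 ∧ rest w N z < 1/4}, ?_, ?_⟩
  · intro B hB
    have hT := measurableSet_toMeasurable ν B
    obtain ⟨h1, h2⟩ := int_W μ ν c hc1 w hw hw1 hwν (toMeasurable ν B) hT N
    rw [measure_toMeasurable] at h1
    have hsub : ({z | W w (toMeasurable ν B) N z < 1/4 ∧ rest w N z < 1/4} : Set (Fin N → Ω))ᶜ ⊆
        {z | 1/4 ≤ W w (toMeasurable ν B) N z} ∪ {z | 1/4 ≤ rest w N z} := by
      intro z hz
      simp only [Set.mem_compl_iff, Set.mem_setOf_eq, not_and_or, not_lt] at hz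
      exact hz
    have m1 := mul_meas_ge_le_lintegral (μ := Measure.pi (fun _ : Fin N => μ))
      (meas_W w hw _ hT N) (1/4)
    have m2 := mul_meas_ge_le_lintegral (μ := Measure.pi (fun _ : Fin N => μ))
      (meas_rest w hw N) (1/4)
    have q : ∀ a b : ℝ≥0∞, 1/4 * a ≤ b → a ≤ 4 * b := by
      intro a b h
      calc a = 4 * (1/4 * a) := by
            rw [← mul_assoc, one_div, ENNReal.mul_inv_cancel (by norm_num) (by norm_num), one_mul]
        _ ≤ 4 * b := by gcongr
    calc _ ≤ _ := measure_mono hsub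
      _ ≤ _ := measure_union_le _ _
      _ ≤ 4 * δ + 4 * δ := by
          gcongr
          · exact (q _ _ m1).trans (by gcongr; exact h1.trans hB)
          · exact (q _ _ m2).trans (by gcongr; exact h2.le.trans hN)
      _ = 8 * δ := by ring
  · intro B B' z hz hz'
    by_contra hcon
    push Not at hcon
    have h := W_union w (toMeasurable ν B) (toMeasurable ν B') N z (fun b => by
      by_cases hb : z b ∈ B
      · exact Or.inl (subset_toMeasurable _ _ hb)
      · exact Or.inr (subset_toMeasurable _ _ (hcon b hb)))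
    have h1 := W_univ w hw1 N z
    have h2 : (1 : ℝ≥0∞) ≤ (W w (toMeasurable ν B) N z + W w (toMeasurable ν B') N z)
        + rest w N z := by rw [← h1]; gcongr
    have h3 : (W w (toMeasurable ν B) N z + W w (toMeasurable ν B') N z)
        + rest w N z < 1/4 + 1/4 + 1/4 := by
      exact ENNReal.add_lt_add (ENNReal.add_lt_add hz.1 hz'.1) hz.2
    have h4 : (1/4 + 1/4 + 1/4 : ℝ≥0∞) ≤ 1 := by
      have : (1/4 + 1/4 + 1/4 : ℝ≥0∞) ≤ 1/4 + 1/4 + 1/4 + 1/4 := le_self_add
      refine this.trans (le_of_eq ?_)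
      rw [← ENNReal.toReal_eq_toReal_iff' (by norm_num) (by norm_num)]
      rw [ENNReal.toReal_add (by norm_num) (by norm_num), ENNReal.toReal_add (by norm_num)
        (by norm_num), ENNReal.toReal_add (by norm_num) (by norm_num)]
      norm_num
    exact absurd (h2.trans_lt (h3.trans_le h4)) (lt_irrefl _)

lemma pi_ge (X : Type u) [MeasurableSpace X] (P Q : Measure X) [IsProbabilityMeasure P]
    [IsProbabilityMeasure Q] (c : ℝ≥0∞) (hc : c • P ≤ Q) (m : ℕ) :
    (c ^ m) • (Measure.pi (fun _ : Fin m => P)) ≤ Measure.pi (fun _ : Fin m => Q) := by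
  rw [Measure.le_iff]
  induction m with
  | zero =>
    intro B hB
    have : (Measure.pi (fun _ : Fin 0 => Q)) = (Measure.pi (fun _ : Fin 0 => P)) := by
      rw [Measure.pi_of_empty, Measure.pi_of_empty]
    rw [this]; simp
  | succ m ih =>
    intro B hB
    set e := MeasurableEquiv.piFinSuccAbove (fun _ : Fin (m+1) => X) 0 with he
    have hB' : MeasurableSet (e.symm ⁻¹' B) := e.symm.measurable hB
    have key : ∀ (R : Measure X) [IsProbabilityMeasure R],
        (Measure.pi (fun _ : Fin (m+1) => R)) B =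
        ∫⁻ x, (Measure.pi (fun _ : Fin m => R))
          (Prod.mk x ⁻¹' (e.symm ⁻¹' B)) ∂(R) := by
      intro R _
      have hR := measurePreserving_piFinSuccAbove (fun _ : Fin (m+1) => R) 0
      have := hR.measure_preimage (s := e.symm ⁻¹' B) hB'.nullMeasurableSet
      rw [← he] at this
      have hpre : e ⁻¹' (e.symm ⁻¹' B) = B := by
        ext x; simp
      rw [hpre] at this
      rw [this, Measure.prod_apply hB']
    simp only [Measure.smul_apply, smul_eq_mul] at ih ⊢
    rw [key P, key Q]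
    calc c ^ (m+1) * ∫⁻ x, (Measure.pi (fun _ : Fin m => P))
          (Prod.mk x ⁻¹' (e.symm ⁻¹' B)) ∂(P)
        = c * ∫⁻ x, c ^ m * (Measure.pi (fun _ : Fin m => P))
          (Prod.mk x ⁻¹' (e.symm ⁻¹' B)) ∂P := by
          rw [lintegral_const_mul _ (measurable_measure_prodMk_left hB'), pow_succ', mul_assoc]
      _ ≤ c * ∫⁻ x, (Measure.pi (fun _ : Fin m => Q))
          (Prod.mk x ⁻¹' (e.symm ⁻¹' B)) ∂P := by
          gcongr with x
          exact ih _ (measurable_prodMk_left hB')
      _ = ∫⁻ x, (Measure.pi (fun _ : Fin m => Q))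
          (Prod.mk x ⁻¹' (e.symm ⁻¹' B)) ∂(c • P) := by
          rw [lintegral_smul_measure, smul_eq_mul]
      _ ≤ _ := lintegral_mono' hc le_rfl

end Pool.Agent.H21.PAC
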